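import Pool.Agent.TH546.PC.Point
import Pool.Agent.W387.Q.Hyp
import Pool.Agent.TH508.LT.Gap2
import Pool.Agent.K1H72.PL.Expo
import Pool.Agent.K1H72.PL.Four

/-!
Self-avoiding polygons on the square lattice: the limit points of `p_{2n} / (μ^(2n) n^θ)`.
-/

set_option autoImplicit false

namespace Pool.Agent.Results.MP_376faf_co.AmplitudeAlternative

open Filter Topology

/-- the number of `n`-step self-avoiding walks on `ℤ²` started at the origin -/
noncomputable def c (n : ℕ) : ℕ :=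
  Nat.card {f : Fin (n + 1) → ℤ × ℤ // f 0 = 0 ∧ Function.Injective f ∧
    ∀ i : Fin n, |(f i.succ).1 - (f i.castSucc).1| + |(f i.succ).2 - (f i.castSucc).2| = 1}

/-- the number of self-avoiding polygons of perimeter `2n` on `ℤ²` up to translation: the number
of injective nearest-neighbour closed loops `f : ℤ/2n → ℤ²` with `f 0 = 0`, divided by `4n` (the
choices of the starting point and of the orientation) -/
noncomputable def p (n : ℕ) : ℝ :=
  (Nat.card {f : ZMod (2 * n) → ℤ × ℤ // f 0 = 0 ∧ Function.Injective f ∧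
    ∀ i : ZMod (2 * n), |(f (i + 1)).1 - (f i).1| + |(f (i + 1)).2 - (f i).2| = 1} : ℝ)
    / (4 * (n : ℝ))

/-- `q_n = p_{2n} / (μ^(2n) n^θ)`; Q1 says that `q_n` converges to a positive finite limit for
`θ = -5/2`. -/
noncomputable def q (μ θ : ℝ) (n : ℕ) : ℝ := p n / (μ ^ (2 * n) * (n : ℝ) ^ θ)

/-- the positive finite limit points of `p_{2n} / (μ^(2n) n^θ)` -/
def amplitudes (μ θ : ℝ) : Set ℝ := {x | 0 < x ∧ MapClusterPt x atTop (q μ θ)}

/-- infinitely many `n` of the parity `i` satisfy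
`|p_{2n} / (μ^(2n) n^θ) - B| ≤ K (1 + |θ|) B log n / √n` -/
def PowerLaw (μ K θ B : ℝ) (i : ℕ) : Prop :=
  ∃ᶠ n : ℕ in atTop, n % 2 = i ∧
    |q μ θ n - B| ≤ K * (1 + |θ|) * B * (Real.log n / Real.sqrt n)

lemma c_eq (n : ℕ) : (c n : ℝ) = H981.cr' n := by
  rw [H981.cr'_eq]
  unfold c H981.C H981.IsSAW
  congr 1
  apply Nat.card_congr
  apply Equiv.subtypeEquivRight
  intro f
  constructor
  · rintro ⟨h0, h1, h2⟩
    exact ⟨h0, h2, h1⟩
  · rintro ⟨h0, h2, h1⟩
    exact ⟨h0, h1, h2⟩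

lemma p_eq (n : ℕ) : p n = H981.PP n := rfl

lemma p_pos {n : ℕ} (hn : 2 ≤ n) : 0 < p n := Pool.Agent.H739K.PP_pos hn

/-- `p_{2n} / μ^(2n)` -/
noncomputable def v (n : ℕ) : ℝ := p n / H981.mu ^ (2 * n)

lemma q_eq (θ : ℝ) : q H981.mu θ = fun n => v n / (n : ℝ) ^ θ := by
  funext n
  unfold q v
  rw [div_div]

lemma sl : ∃ K : ℝ, Pool.Agent.K1H72.PL.Sl v K := by
  obtain ⟨K, hK⟩ := Pool.Agent.W387.Q.f1
  have hmu := H981.mu_pos
  refine ⟨|K| / H981.mu ^ 2, fun n hn => ?_, by positivity, fun n hn => ?_⟩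
  · have := p_pos hn
    unfold v
    positivity
  · have h0 := p_pos hn
    have h1 : |p (n + 1) / p n - H981.mu ^ 2| ≤ K * (Real.log n / Real.sqrt n) := by
      rw [← Pool.Agent.TH508.LT.rN_eq hn]
      exact hK n hn
    have e : v (n + 1) / v n - 1 = (p (n + 1) / p n - H981.mu ^ 2) / H981.mu ^ 2 := by
      unfold v
      rw [show 2 * (n + 1) = 2 * n + 2 by ring, pow_add]
      field_simp
    have hf := Pool.Agent.R956.D2.f_nonneg n
    rw [e, abs_div, abs_of_pos (show 0 < H981.mu ^ 2 by positivity), div_mul_eq_mul_div]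
    apply div_le_div_of_nonneg_right _ (by positivity)
    exact h1.trans (mul_le_mul_of_nonneg_right (le_abs_self K) hf)

lemma conv {K A θ B : ℝ} {i : ℕ} (hA : A ≤ K) (hB : 0 < B) (h : ∃ᶠ n : ℕ in atTop, n % 2 = i ∧
    |v n / (n : ℝ) ^ θ - B| ≤ A * (1 + |θ|) * B * Pool.Agent.R956.D2.f n) :
    PowerLaw H981.mu K θ B i := by
  refine h.mono fun n hn => ⟨hn.1, ?_⟩
  have e := congrFun (q_eq θ) n
  rw [e]
  refine hn.2.trans ?_
  have hf := Pool.Agent.R956.D2.f_nonneg n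
  have hθ := abs_nonneg θ
  have : A * (1 + |θ|) * B * Pool.Agent.R956.D2.f n ≤
      K * (1 + |θ|) * B * Pool.Agent.R956.D2.f n := by
    apply mul_le_mul_of_nonneg_right _ hf
    apply mul_le_mul_of_nonneg_right _ hB.le
    apply mul_le_mul_of_nonneg_right hA (by positivity)
  exact this

/-- **Theorem.** Let `μ` be the connective constant of `ℤ²` and `p_{2n}` the number of self-avoiding
polygons of perimeter `2n` up to translation, `q_n = p_{2n} / (μ^(2n) n^θ)`.  There is `K` such that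
for every real `θ`:
(1) if `q_n ≤ a` for infinitely many `n` and `q_n ≥ b` for infinitely many `n`, and `a < B < b`,
`B > 0`, then for each parity infinitely many `n` of this parity have
`|q_n - B| ≤ K (1 + |θ|) B log n / √n`;
(2) `q_n → 0`, or `q_n → ∞`, or `q_n` converges to a positive limit, or there are `0 < a < b` such that
the conclusion of (1) holds for all `B` in `(a, b)`;
(3) `q_n` converges to a positive finite limit if and only if it has a positive finite limit point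
and the set of these is countable (for `θ = -5/2` this is Q1). -/
theorem result : ∃ μ : ℝ, 0 < μ ∧
    Tendsto (fun n : ℕ => (c n : ℝ) ^ ((1 : ℝ) / (n : ℝ))) atTop (𝓝 μ) ∧
    ∃ K : ℝ, 0 < K ∧ ∀ θ : ℝ,
    (∀ a b B : ℝ, 0 < B → a < B → B < b → (∃ᶠ n in atTop, q μ θ n ≤ a) →
      (∃ᶠ n in atTop, b ≤ q μ θ n) → ∀ i : ℕ, i ≤ 1 → PowerLaw μ K θ B i) ∧
    (Tendsto (q μ θ) atTop (𝓝 0) ∨ Tendsto (q μ θ) atTop atTop ∨
      (∃ C : ℝ, 0 < C ∧ Tendsto (q μ θ) atTop (𝓝 C)) ∨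
      ∃ a b : ℝ, 0 < a ∧ a < b ∧ ∀ B ∈ Set.Ioo a b, ∀ i : ℕ, i ≤ 1 → PowerLaw μ K θ B i) ∧
    ((∃ C : ℝ, 0 < C ∧ Tendsto (q μ θ) atTop (𝓝 C)) ↔
      (amplitudes μ θ).Nonempty ∧ (amplitudes μ θ).Countable) := by
  refine ⟨H981.mu, H981.mu_pos, ?_, ?_⟩
  · simp only [c_eq]
    exact H981.tendsto_root
  have hmu := H981.mu_pos
  obtain ⟨K0, S⟩ := sl
  have hK0 := S.hK
  have one : ∀ θ a b B : ℝ, 0 < B → a < B → B < b → (∃ᶠ n in atTop, q H981.mu θ n ≤ a) →
      (∃ᶠ n in atTop, b ≤ q H981.mu θ n) → ∀ i : ℕ, i ≤ 1 →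
      PowerLaw H981.mu (6 * K0 + 6) θ B i := by
    intro θ a b B hB ha hb f1 f2 i hi
    rw [q_eq] at f1 f2
    exact conv le_rfl hB (Pool.Agent.K1H72.PL.amp S hB ha hb f1 f2 hi)
  refine ⟨6 * K0 + 6, by linarith, fun θ => ⟨one θ, ?_, ?_⟩⟩
  · have hq : ∀ᶠ n in atTop, 0 < q H981.mu θ n := by
      filter_upwards [eventually_ge_atTop 2] with n hn
      have a1 := p_pos hn
      have a2 : (0 : ℝ) < n := by exact_mod_cast (show 0 < n by omega)
      have a3 := Real.rpow_pos_of_pos a2 θ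
      unfold q
      positivity
    rcases Pool.Agent.K1H72.PL.four hq with h | h | h | ⟨a, b, ha, hab, f1, f2⟩
    · exact Or.inl h
    · exact Or.inr (Or.inl h)
    · exact Or.inr (Or.inr (Or.inl h))
    · exact Or.inr (Or.inr (Or.inr ⟨a, b, ha, hab, fun B hB i hi =>
        one θ a b B (ha.trans hB.1) hB.1 hB.2 f1 f2 i hi⟩))
  · have h := Pool.Agent.K1H72.PL.conv_iff S θ
    unfold amplitudes
    rw [q_eq]
    exact h

end Pool.Agent.Results.MP_376faf_co.AmplitudeAlternative
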