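import Pool.Agent.TH546.PC.Point
import Pool.Agent.W387.Q.Hyp
import Pool.Agent.TH508.LT.Gap2
import Pool.Agent.K1H72.PL.Expo
import Pool.Agent.K1H72.PL.Four

/-!
Self-avoiding polygons on the square lattice: the limit points of `log (p_{2n} / μ^(2n)) / log n`.
-/

set_option autoImplicit false

namespace Pool.Agent.Results.MP_376faf_co.ExponentAlternative

open Filter Topology

/-- the number of `n`-step self-avoiding walks on `ℤ²` started at the origin -/
noncomputable def c (n : ℕ) : ℕ :=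
  Nat.card {f : Fin (n + 1) → ℤ × ℤ // f 0 = 0 ∧ Function.Injective f ∧
    ∀ i : Fin n, |(f i.succ).1 - (f i.castSucc).1| + |(f i.succ).2 - (f i.castSucc).2| = 1}

/-- the number of self-avoiding polygons of perimeter `2n` on `ℤ²` up to translation: the number
of injective nearest-neighbour closed loops `f : ℤ/2n → ℤ²` with `f 0 = 0`, divided by `4n` (the
choices of the starting point and of the orientation) -/
noncomputable def p (n : ℕ) : ℝ :=
  (Nat.card {f : ZMod (2 * n) → ℤ × ℤ // f 0 = 0 ∧ Function.Injective f ∧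
    ∀ i : ZMod (2 * n), |(f (i + 1)).1 - (f i).1| + |(f (i + 1)).2 - (f i).2| = 1} : ℝ)
    / (4 * (n : ℝ))

/-- `q_n = p_{2n} / (μ^(2n) n^θ)`; Q1 says that `q_n` converges to a positive finite limit for
`θ = -5/2`. -/
noncomputable def q (μ θ : ℝ) (n : ℕ) : ℝ := p n / (μ ^ (2 * n) * (n : ℝ) ^ θ)

/-- the exponent at `n`: `log (p_{2n} / μ^(2n)) / log n` -/
noncomputable def g (μ : ℝ) (n : ℕ) : ℝ := Real.log (p n / μ ^ (2 * n)) / Real.log n

/-- the (finite) limit points of the exponents `g_n` -/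
def exponents (μ : ℝ) : Set ℝ := {x | MapClusterPt x atTop (g μ)}

/-- infinitely many `n` of the parity `i` satisfy
`|p_{2n} / (μ^(2n) n^θ) - B| ≤ K (1 + |θ|) B log n / √n` -/
def PowerLaw (μ K θ B : ℝ) (i : ℕ) : Prop :=
  ∃ᶠ n : ℕ in atTop, n % 2 = i ∧
    |q μ θ n - B| ≤ K * (1 + |θ|) * B * (Real.log n / Real.sqrt n)

lemma c_eq (n : ℕ) : (c n : ℝ) = H981.cr' n := by
  rw [H981.cr'_eq]
  unfold c H981.C H981.IsSAW
  congr 1
  apply Nat.card_congr
  apply Equiv.subtypeEquivRight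
  intro f
  constructor
  · rintro ⟨h0, h1, h2⟩
    exact ⟨h0, h2, h1⟩
  · rintro ⟨h0, h2, h1⟩
    exact ⟨h0, h1, h2⟩

lemma p_eq (n : ℕ) : p n = H981.PP n := rfl

lemma p_pos {n : ℕ} (hn : 2 ≤ n) : 0 < p n := Pool.Agent.H739K.PP_pos hn

/-- `p_{2n} / μ^(2n)` -/
noncomputable def v (n : ℕ) : ℝ := p n / H981.mu ^ (2 * n)

lemma q_eq (θ : ℝ) : q H981.mu θ = fun n => v n / (n : ℝ) ^ θ := by
  funext n
  unfold q v
  rw [div_div]

lemma sl : ∃ K : ℝ, Pool.Agent.K1H72.PL.Sl v K := by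
  obtain ⟨K, hK⟩ := Pool.Agent.W387.Q.f1
  have hmu := H981.mu_pos
  refine ⟨|K| / H981.mu ^ 2, fun n hn => ?_, by positivity, fun n hn => ?_⟩
  · have := p_pos hn
    unfold v
    positivity
  · have h0 := p_pos hn
    have h1 : |p (n + 1) / p n - H981.mu ^ 2| ≤ K * (Real.log n / Real.sqrt n) := by
      rw [← Pool.Agent.TH508.LT.rN_eq hn]
      exact hK n hn
    have e : v (n + 1) / v n - 1 = (p (n + 1) / p n - H981.mu ^ 2) / H981.mu ^ 2 := by
      unfold v
      rw [show 2 * (n + 1) = 2 * n + 2 by ring, pow_add]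
      field_simp
    have hf := Pool.Agent.R956.D2.f_nonneg n
    rw [e, abs_div, abs_of_pos (show 0 < H981.mu ^ 2 by positivity), div_mul_eq_mul_div]
    apply div_le_div_of_nonneg_right _ (by positivity)
    exact h1.trans (mul_le_mul_of_nonneg_right (le_abs_self K) hf)

lemma conv {K A θ B : ℝ} {i : ℕ} (hA : A ≤ K) (hB : 0 < B) (h : ∃ᶠ n : ℕ in atTop, n % 2 = i ∧
    |v n / (n : ℝ) ^ θ - B| ≤ A * (1 + |θ|) * B * Pool.Agent.R956.D2.f n) :
    PowerLaw H981.mu K θ B i := by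
  refine h.mono fun n hn => ⟨hn.1, ?_⟩
  have e := congrFun (q_eq θ) n
  rw [e]
  refine hn.2.trans ?_
  have hf := Pool.Agent.R956.D2.f_nonneg n
  have hθ := abs_nonneg θ
  have : A * (1 + |θ|) * B * Pool.Agent.R956.D2.f n ≤
      K * (1 + |θ|) * B * Pool.Agent.R956.D2.f n := by
    apply mul_le_mul_of_nonneg_right _ hf
    apply mul_le_mul_of_nonneg_right _ hB.le
    apply mul_le_mul_of_nonneg_right hA (by positivity)
  exact this

/-- **Theorem.** Let `μ` be the connective constant of `ℤ²` and `p_{2n}` the number of self-avoiding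
polygons of perimeter `2n` up to translation, `g_n = log (p_{2n} / μ^(2n)) / log n`.
(1) The set of limit points of `g_n` is closed, an interval, and contained in `(-∞, -1]`;
(2) `g_n → γ` if and only if `γ` is a limit point near which there are only countably many limit
points;
(3) `g_n → -∞`, or `g_n` converges to a limit `≤ -3/2`, or there are `x < y ≤ -1` such that
for all exponents `θ` in `(x, y)`, all `B > 0` and each parity, infinitely many `n` of this parity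
have `|p_{2n} / (μ^(2n) n^θ) - B| ≤ K (1 + |θ|) B log n / √n`, with `K` absolute. -/
theorem result : ∃ μ : ℝ, 0 < μ ∧
    Tendsto (fun n : ℕ => (c n : ℝ) ^ ((1 : ℝ) / (n : ℝ))) atTop (𝓝 μ) ∧
    (IsClosed (exponents μ) ∧ (exponents μ).OrdConnected ∧ exponents μ ⊆ Set.Iic (-1)) ∧
    (∀ γ : ℝ, Tendsto (g μ) atTop (𝓝 γ) ↔ γ ∈ exponents μ ∧
      ∃ δ : ℝ, 0 < δ ∧ (exponents μ ∩ Set.Ioo (γ - δ) (γ + δ)).Countable) ∧
    (Tendsto (g μ) atTop atBot ∨ (∃ γ : ℝ, γ ≤ -3 / 2 ∧ Tendsto (g μ) atTop (𝓝 γ)) ∨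
      ∃ K x y : ℝ, 0 < K ∧ x < y ∧ y ≤ -1 ∧ ∀ θ ∈ Set.Ioo x y, ∀ B : ℝ, 0 < B →
        ∀ i : ℕ, i ≤ 1 → PowerLaw μ K θ B i) := by
  refine ⟨H981.mu, H981.mu_pos, ?_, ?_⟩
  · simp only [c_eq]
    exact H981.tendsto_root
  have hmu := H981.mu_pos
  obtain ⟨K0, S⟩ := sl
  have hK0 := S.hK
  obtain ⟨K1, hK1, h1⟩ := Pool.Agent.TH546.PC.point
  obtain ⟨K3, hK3, h3⟩ := Pool.Agent.TH546.PC.log_sum
  have h1' : ∀ n : ℕ, 2 ≤ n → v n ≤ K1 / n := h1
  have h3' : ∀ n : ℕ, 2 ≤ n →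
      ∑ j ∈ Finset.Icc 2 n, Real.sqrt j * v j ≤ (2 * K3) * Real.log n := by
    intro n hn
    have h4 : ∑ j ∈ Finset.Icc 2 n, Real.sqrt j * v j ≤
        ∑ j ∈ Finset.Icc 2 n, 2 * (Pool.Agent.W870.Pg.MW j * Pool.Agent.W870.Pg.Fp j) := by
      apply Finset.sum_le_sum
      intro j hj
      have hj2 := (Finset.mem_Icc.mp hj).1
      have a1 := Pool.Agent.W870.Pg.sqrt_le_two_MW hj2
      have a2 : 0 < v j := S.pos j hj2
      have e : Pool.Agent.W870.Pg.Fp j = v j := rfl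
      rw [e]
      nlinarith
    rw [← Finset.mul_sum] at h4
    have := h3 n hn
    linarith
  have h32 := Pool.Agent.K1H72.PL.freq32 S.pos (show 0 ≤ 2 * K3 by linarith) h3'
  have E := Pool.Agent.K1H72.PL.expo S h1' h32
  refine ⟨E.1, E.2.1, ?_⟩
  rcases E.2.2 with h | h | ⟨x, y, hxy, hy, h⟩
  · exact Or.inl h
  · exact Or.inr (Or.inl h)
  · exact Or.inr (Or.inr ⟨8 * K0 + 6, x, y, by linarith, hxy, hy, fun θ hθ B hB i hi =>
      conv le_rfl hB (h θ hθ B hB i hi)⟩)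

end Pool.Agent.Results.MP_376faf_co.ExponentAlternative
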