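import Pool.Agent.K1H48.SO.Inst

/-!
Self-avoiding polygons on the square lattice: `p_{2n} p_{2n+4} / p_{2n+2}² = 1 + O((log n)² / n)`.
-/

set_option autoImplicit false

namespace Pool.Agent.Results.MP_376faf_co.SecondRatio

/-- `f` runs once around a simple cycle of `ℤ²` with `m` edges, from the origin. -/
def IsPolygon (m : ℕ) (f : ZMod m → ℤ × ℤ) : Prop :=
  f 0 = 0 ∧ Function.Injective f ∧
    ∀ i : ZMod m, |(f (i + 1)).1 - (f i).1| + |(f (i + 1)).2 - (f i).2| = 1

/-- the number `p_{2n}` of self-avoiding polygons of perimeter `2n`, up to translation: a polygon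
has `2n` possible starting points and `2` orientations. -/
noncomputable def p (n : ℕ) : ℝ :=
  (Nat.card {f : ZMod (2 * n) → ℤ × ℤ // IsPolygon (2 * n) f} : ℝ) / (4 * (n : ℝ))

lemma p_eq (n : ℕ) : p n = H981.PP n := rfl

lemma p_pos {n : ℕ} (hn : 2 ≤ n) : 0 < p n := Pool.Agent.H739K.PP_pos' hn

/-- **Theorem.** Let `p_{2n}` be the number of self-avoiding polygons of perimeter `2n` up to
translation. There is `K` such that for all `n ≥ 2`
`|p_{2n} p_{2n+4} / p_{2n+2}² - 1| ≤ K (log n)² / n`. -/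
theorem result : ∃ K : ℝ, ∀ n : ℕ, 2 ≤ n →
    |p n * p (n + 2) / p (n + 1) ^ 2 - 1| ≤ K * (Real.log n ^ 2 / n) := by
  obtain ⟨K, hK⟩ := Pool.Agent.K1H48.SO.poly_second
  refine ⟨K, fun n hn => ?_⟩
  rw [p_eq, p_eq, p_eq, mul_comm (H981.PP n)]
  exact hK n hn

end Pool.Agent.Results.MP_376faf_co.SecondRatio
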