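import Pool.Agent.TH546.PC.Point
import Pool.Agent.W387.Q.Hyp
import Pool.Agent.TH508.LT.Gap2
import Pool.Agent.K1H72.PL.Expo
import Pool.Agent.K1H72.PL.Four

/-!
Self-avoiding polygons on the square lattice: convergence of `p_{2n} / (μ^(2n) n^θ)` along sparse
sequences of perimeters suffices.
-/

set_option autoImplicit false

namespace Pool.Agent.Results.MP_376faf_co.SparsePerimeters

open Filter Topology

/-- the number of `n`-step self-avoiding walks on `ℤ²` started at the origin -/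
noncomputable def c (n : ℕ) : ℕ :=
  Nat.card {f : Fin (n + 1) → ℤ × ℤ // f 0 = 0 ∧ Function.Injective f ∧
    ∀ i : Fin n, |(f i.succ).1 - (f i.castSucc).1| + |(f i.succ).2 - (f i.castSucc).2| = 1}

/-- the number of self-avoiding polygons of perimeter `2n` on `ℤ²` up to translation: the number
of injective nearest-neighbour closed loops `f : ℤ/2n → ℤ²` with `f 0 = 0`, divided by `4n` (the
choices of the starting point and of the orientation) -/
noncomputable def p (n : ℕ) : ℝ :=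
  (Nat.card {f : ZMod (2 * n) → ℤ × ℤ // f 0 = 0 ∧ Function.Injective f ∧
    ∀ i : ZMod (2 * n), |(f (i + 1)).1 - (f i).1| + |(f (i + 1)).2 - (f i).2| = 1} : ℝ)
    / (4 * (n : ℝ))

/-- `q_n = p_{2n} / (μ^(2n) n^θ)`; Q1 says that `q_n` converges to a positive finite limit for
`θ = -5/2`. -/
noncomputable def q (μ θ : ℝ) (n : ℕ) : ℝ := p n / (μ ^ (2 * n) * (n : ℝ) ^ θ)

lemma c_eq (n : ℕ) : (c n : ℝ) = H981.cr' n := by
  rw [H981.cr'_eq]
  unfold c H981.C H981.IsSAW
  congr 1
  apply Nat.card_congr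
  apply Equiv.subtypeEquivRight
  intro f
  constructor
  · rintro ⟨h0, h1, h2⟩
    exact ⟨h0, h2, h1⟩
  · rintro ⟨h0, h2, h1⟩
    exact ⟨h0, h1, h2⟩

lemma p_eq (n : ℕ) : p n = H981.PP n := rfl

lemma p_pos {n : ℕ} (hn : 2 ≤ n) : 0 < p n := Pool.Agent.H739K.PP_pos hn

/-- `p_{2n} / μ^(2n)` -/
noncomputable def v (n : ℕ) : ℝ := p n / H981.mu ^ (2 * n)

lemma q_eq (θ : ℝ) : q H981.mu θ = fun n => v n / (n : ℝ) ^ θ := by
  funext n
  unfold q v
  rw [div_div]

lemma sl : ∃ K : ℝ, Pool.Agent.K1H72.PL.Sl v K := by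
  obtain ⟨K, hK⟩ := Pool.Agent.W387.Q.f1
  have hmu := H981.mu_pos
  refine ⟨|K| / H981.mu ^ 2, fun n hn => ?_, by positivity, fun n hn => ?_⟩
  · have := p_pos hn
    unfold v
    positivity
  · have h0 := p_pos hn
    have h1 : |p (n + 1) / p n - H981.mu ^ 2| ≤ K * (Real.log n / Real.sqrt n) := by
      rw [← Pool.Agent.TH508.LT.rN_eq hn]
      exact hK n hn
    have e : v (n + 1) / v n - 1 = (p (n + 1) / p n - H981.mu ^ 2) / H981.mu ^ 2 := by
      unfold v
      rw [show 2 * (n + 1) = 2 * n + 2 by ring, pow_add]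
      field_simp
    have hf := Pool.Agent.R956.D2.f_nonneg n
    rw [e, abs_div, abs_of_pos (show 0 < H981.mu ^ 2 by positivity), div_mul_eq_mul_div]
    apply div_le_div_of_nonneg_right _ (by positivity)
    exact h1.trans (mul_le_mul_of_nonneg_right (le_abs_self K) hf)

/-- **Theorem.** Let `μ` be the connective constant of `ℤ²` and `p_{2n}` the number of self-avoiding
polygons of perimeter `2n` up to translation, `q_n = p_{2n} / (μ^(2n) n^θ)` with any real `θ`.  Let
`s_k` be a sequence of integers with `s_k → ∞` and `(s_{k+1} - s_k) log s_k / √s_k → 0`.  If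
`q_{s_k} → C` then `q_n → C`.  (For `θ = -5/2`, `C > 0`: Q1 has to be proved only along one such
sequence, for example `s_k = k^2 / (log k)^3` rounded down.) -/
theorem result : ∃ μ : ℝ, 0 < μ ∧
    Tendsto (fun n : ℕ => (c n : ℝ) ^ ((1 : ℝ) / (n : ℝ))) atTop (𝓝 μ) ∧
    ∀ (θ C : ℝ) (s : ℕ → ℕ), Tendsto s atTop atTop →
      Tendsto (fun k => ((s (k + 1) : ℝ) - s k) * (Real.log (s k) / Real.sqrt (s k)))
        atTop (𝓝 0) →
      Tendsto (fun k => q μ θ (s k)) atTop (𝓝 C) → Tendsto (q μ θ) atTop (𝓝 C) := by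
  refine ⟨H981.mu, H981.mu_pos, ?_, fun θ C s hs hgap h => ?_⟩
  · simp only [c_eq]
    exact H981.tendsto_root
  · obtain ⟨K0, S⟩ := sl
    rw [q_eq] at h ⊢
    exact Pool.Agent.K1H72.PL.sparse S θ C hs hgap h

end Pool.Agent.Results.MP_376faf_co.SparsePerimeters
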